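import Pool.Agent.H31.RK2

open MeasureTheory ProbabilityTheory Filter

namespace Pool.Agent.Results.MP_bc03d6_nt.ZeroOne

/-- Points of the unit cube lying in infinitely many of the boxes around the `x j`. -/
def W {n : ℕ} (x : ℕ → Fin n → ℝ) (ψ : Fin n → ℕ → ℝ) : Set (Fin n → ℝ) :=
  {y | y ∈ Set.Icc (0 : Fin n → ℝ) 1 ∧ {j | ∀ i, |y i - x j i| < ψ i j}.Infinite}

theorem result (n : ℕ) (Ω : Type) [MeasurableSpace Ω] (P : Measure Ω) [IsProbabilityMeasure P]
    (X : ℕ → Ω → Fin n → ℝ) (hm : ∀ j, Measurable (X j)) (hi : iIndepFun X P)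
    (hl : ∀ j, P.map (X j) = volume.restrict (Set.Icc (0 : Fin n → ℝ) 1)) :
    ∀ᵐ ω ∂P, ∀ ψ : Fin n → ℕ → ℝ, (∀ i j, 0 < ψ i j) → (∀ i, Antitone (ψ i)) →
      (¬ Summable fun j => ∏ i, ψ i j) → volume (W (fun j => X j ω) ψ) = 1 := by
  filter_upwards [ae_all_iff.2 (H31.RK.X_U hm hl), ae_all_iff.2 fun r : ℕ =>
    H31.RK.good hm hi hl (1 / (r + 1)) (by positivity)] with ω h1 h2 ψ a b c
  have h := H31.RK.det (fun j => X j ω) h1 h2 ψ a b c
  have e : W (fun j => X j ω) ψ =ᵐ[H31.RK.μ n] Set.univ := by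
    filter_upwards [h, ae_restrict_mem (μ := volume) (s := Set.Icc (0 : Fin n → ℝ) 1) measurableSet_Icc]
      with y y1 y2
    exact eq_true ⟨y2, Nat.frequently_atTop_iff_infinite.1 y1⟩
  refine le_antisymm ((measure_mono fun y hy => hy.1).trans (by simp [Real.volume_Icc_pi])) ?_
  rw [← measure_univ (μ := H31.RK.μ n), ← measure_congr e]
  exact Measure.restrict_le_self _

end Pool.Agent.Results.MP_bc03d6_nt.ZeroOne
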